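import Pool.Agent.Helper25.GF.Goals

/-!
# Project GF, packet ABA
-/

set_option autoImplicit false

namespace Pool.Agent.Helper85.GF

open Finset Pool.Agent.Helper25.GF

theorem kk_succ (I : Finset ℕ) (n : ℕ) :
    (kk I (n + 1) : ℝ) = kk I n + if n ∈ I then 1 else 0 := by
  have h : I.filter (· < n + 1) = I.filter (· < n) ∪ (I.filter (· = n)) := by
    ext t
    simp only [mem_filter, mem_union]
    constructor
    · rintro ⟨h1, h2⟩
      rcases Nat.lt_succ_iff_lt_or_eq.1 h2 with h3 | h3
      · exact Or.inl ⟨h1, h3⟩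
      · exact Or.inr ⟨h1, h3⟩
    · rintro (⟨h1, h2⟩ | ⟨h1, h2⟩)
      · exact ⟨h1, by omega⟩
      · exact ⟨h1, by omega⟩
  have hd : Disjoint (I.filter (· < n)) (I.filter (· = n)) := by
    rw [Finset.disjoint_left]
    intro t h1 h2
    rw [mem_filter] at h1 h2
    omega
  unfold kk
  rw [h, card_union_of_disjoint hd, Finset.filter_eq']
  split_ifs with h1
  · simp
  · simp

/-- sums over a filtered set as sums over a range -/
theorem sum_range_form (I : Finset ℕ) (T : ℕ) (f : ℕ → ℝ) :
    ∑ t ∈ I.filter (fun t => 0 < t ∧ t < T), f t =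
      ∑ t ∈ range T, if t ∈ I ∧ 0 < t then f t else 0 := by
  rw [← Finset.sum_filter]
  congr 1
  ext t
  simp only [mem_filter, mem_range]
  tauto

theorem aba : ABA := by
  intro I N a b hI hN ha hb hyp
  have hfil : I.filter (0 < ·) = I.filter (fun t => 0 < t ∧ t < N) := by
    ext t
    simp only [mem_filter]
    constructor
    · rintro ⟨h1, h2⟩
      exact ⟨h1, h2, mem_range.1 (hI h1)⟩
    · rintro ⟨h1, h2, -⟩
      exact ⟨h1, h2⟩
  -- the identities
  have key : ∀ n : ℕ, 1 ≤ n →
      ∑ T ∈ Ico 2 (n + 1), (1 / ((T : ℝ) - 1) - 1 / T) * En I T =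
        ∑ t ∈ I.filter (fun t => 0 < t ∧ t < n), (kk I t : ℝ) / (t : ℝ) ^ 2 - En I n / n := by
    intro n hn
    induction n, hn using Nat.le_induction with
    | base =>
      unfold En
      simp only [sum_range_form]
      simp
    | succ n hn ih =>
      rw [Finset.sum_Ico_succ_top (by omega), ih]
      unfold En
      simp only [sum_range_form]
      rw [Finset.sum_range_succ, Finset.sum_range_succ]
      have hn0 : (n : ℝ) ≠ 0 := by positivity
      have hn1 : ((n : ℝ) + 1) ≠ 0 := by positivity
      push_cast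
      have e : ((n : ℝ) + 1 - 1) = n := by ring
      rw [e]
      generalize (∑ x ∈ range n, if x ∈ I ∧ 0 < x then (kk I x : ℝ) / (x : ℝ) ^ 2 else 0) = A
      generalize (∑ x ∈ range n, if x ∈ I ∧ 0 < x then (kk I x : ℝ) / (x : ℝ) else 0) = B
      by_cases h : n ∈ I ∧ 0 < n
      · simp only [if_pos h]
        field_simp
        ring
      · simp only [if_neg h]
        field_simp
        ring
  have key2 : ∀ n : ℕ, 1 ≤ n →
      ∑ T ∈ Ico 2 (n + 1), (1 / ((T : ℝ) - 1) - 1 / T) * (kk I T : ℝ) =
        ∑ t ∈ I.filter (fun t => 0 < t ∧ t < n), (1 : ℝ) / t + kk I 1 - (kk I n : ℝ) / n := by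
    intro n hn
    induction n, hn using Nat.le_induction with
    | base =>
      simp only [sum_range_form]
      simp
    | succ n hn ih =>
      rw [Finset.sum_Ico_succ_top (by omega), ih]
      simp only [sum_range_form]
      rw [Finset.sum_range_succ, kk_succ I n]
      have hn0 : (n : ℝ) ≠ 0 := by positivity
      have hn1 : ((n : ℝ) + 1) ≠ 0 := by positivity
      push_cast
      have e : ((n : ℝ) + 1 - 1) = n := by ring
      rw [e]
      generalize (∑ x ∈ range n, if x ∈ I ∧ 0 < x then (1 : ℝ) / (x : ℝ) else 0) = A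
      by_cases h : n ∈ I
      · have h' : n ∈ I ∧ 0 < n := ⟨h, by omega⟩
        simp only [if_pos h, if_pos h']
        field_simp
        ring
      · have h' : ¬(n ∈ I ∧ 0 < n) := fun h1 => h h1.1
        simp only [if_neg h, if_neg h']
        field_simp
        ring
  have key3 : ∀ n : ℕ, 1 ≤ n →
      ∑ T ∈ Ico 2 (n + 1), (1 / ((T : ℝ) - 1) - 1 / T) = 1 - 1 / (n : ℝ) := by
    intro n hn
    induction n, hn using Nat.le_induction with
    | base => simp
    | succ n hn ih =>
      rw [Finset.sum_Ico_succ_top (by omega), ih]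
      push_cast
      ring
  have hNpos : (0 : ℝ) < N := by positivity
  -- the inequality
  have h1 : ∑ T ∈ Ico 2 (N + 1), (1 / ((T : ℝ) - 1) - 1 / T) * En I T ≤
      ∑ T ∈ Ico 2 (N + 1), (a * ((1 / ((T : ℝ) - 1) - 1 / T) * (kk I T : ℝ)) +
        b * (1 / ((T : ℝ) - 1) - 1 / T)) := by
    refine Finset.sum_le_sum fun T hT => ?_
    rw [mem_Ico] at hT
    have h2 : (2 : ℝ) ≤ T := by exact_mod_cast hT.1
    have h3 : (0 : ℝ) ≤ 1 / ((T : ℝ) - 1) - 1 / T := by
      rw [sub_nonneg]
      exact one_div_le_one_div_of_le (by linarith) (by linarith)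
    have h4 := mul_le_mul_of_nonneg_left (hyp T (by omega)) h3
    linarith
  rw [Finset.sum_add_distrib, ← Finset.mul_sum, ← Finset.mul_sum, key N hN, key2 N hN,
    key3 N hN] at h1
  have hk1 : (kk I 1 : ℝ) ≤ 1 := by
    have : kk I 1 ≤ 1 := by
      unfold kk
      have : I.filter (· < 1) ⊆ {0} := by
        intro t ht
        rw [mem_filter] at ht
        rw [mem_singleton]
        omega
      simpa using Finset.card_le_card this
    exact_mod_cast this
  have hEn : En I N ≤ N := by
    unfold En
    rw [sum_range_form]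
    calc (∑ t ∈ range N, if t ∈ I ∧ 0 < t then (kk I t : ℝ) / t else 0)
        ≤ ∑ t ∈ range N, (1 : ℝ) := by
          refine Finset.sum_le_sum fun t _ => ?_
          split_ifs with h
          · have h2 : kk I t ≤ t := by
              unfold kk
              have : I.filter (· < t) ⊆ range t := by
                intro s hs
                rw [mem_filter] at hs
                exact mem_range.2 hs.2
              simpa using Finset.card_le_card this
            have h3 : (0 : ℝ) < t := by exact_mod_cast h.2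
            rw [div_le_one h3]
            exact_mod_cast h2
          · norm_num
      _ = N := by simp
  have h5 : En I N / N ≤ 1 := by
    rw [div_le_one hNpos]
    exact hEn
  have h6 : (0 : ℝ) ≤ (kk I N : ℝ) / N := by positivity
  have h7 : (0 : ℝ) ≤ 1 / (N : ℝ) := by positivity
  unfold E2 Wt
  rw [hfil]
  have h8 : a * (∑ t ∈ I.filter (fun t => 0 < t ∧ t < N), (1 : ℝ) / t + kk I 1 - (kk I N : ℝ) / N) ≤
      a * (∑ t ∈ I.filter (fun t => 0 < t ∧ t < N), (1 : ℝ) / t + 1) := by
    apply mul_le_mul_of_nonneg_left _ ha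
    linarith
  have h9 : b * (1 - 1 / (N : ℝ)) ≤ b := by
    nlinarith
  linarith

end Pool.Agent.Helper85.GF
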